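import Pool.Agent.KS6_91.AB.Word

/-!
# Counting good pairs
-/

set_option autoImplicit false

namespace Pool.Agent.KS6_91.AB

open Finset

noncomputable section

/-- a set whose elements in a common block of length `M` are close to each other is small -/
theorem blk {X : Finset ℕ} {x h M N : ℕ} (hM : 0 < M) (hX : X ⊆ Ico x (x + h))
    (hd : ∀ s ∈ X, ∀ t ∈ X, s / M = t / M → s ≤ t → t < s + N) : #X ≤ (h / M + 2) * N := by
  have h1 : #X ≤ N * #(X.image (· / M)) := by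
    refine card_le_mul_card_image X N fun b hb => ?_
    obtain ⟨s, hs, rfl⟩ := mem_image.1 hb
    have hne : (X.filter fun t => t / M = s / M).Nonempty := ⟨s, mem_filter.2 ⟨hs, rfl⟩⟩
    have hm := min'_mem _ hne
    have hm' := mem_filter.1 hm
    calc #(X.filter fun t => t / M = s / M) ≤
        #(Ico ((X.filter fun t => t / M = s / M).min' hne)
          ((X.filter fun t => t / M = s / M).min' hne + N)) := by
          refine card_le_card fun t ht => ?_
          have h2 := min'_le _ t ht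
          have ht' := mem_filter.1 ht
          exact mem_Ico.2 ⟨h2, hd _ hm'.1 _ ht'.1 (hm'.2.trans ht'.2.symm) h2⟩
      _ = N := by rw [Nat.card_Ico]; omega
  have h2 : X.image (· / M) ⊆ Ico (x / M) (x / M + (h / M + 2)) := by
    intro b hb
    obtain ⟨s, hs, rfl⟩ := mem_image.1 hb
    have hs' := mem_Ico.1 (hX hs)
    have h3 : x / M ≤ s / M := Nat.div_le_div_right hs'.1
    have h4 : s / M ≤ (x + h) / M := Nat.div_le_div_right hs'.2.le
    have h5 := Nat.add_div (a := x) (b := h) hM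
    refine mem_Ico.2 ⟨h3, ?_⟩
    split_ifs at h5 <;> omega
  have h3 := card_le_card h2
  rw [Nat.card_Ico, Nat.add_sub_cancel_left] at h3
  calc #X ≤ N * #(X.image (· / M)) := h1
    _ ≤ N * (h / M + 2) := Nat.mul_le_mul_left _ h3
    _ = _ := Nat.mul_comm _ _

theorem blk_real {X : Finset ℕ} {x h M e : ℕ} (hM : 0 < M) (hX : X ⊆ Ico x (x + h))
    (hh : 2 * M ≤ h)
    (hd : ∀ s ∈ X, ∀ t ∈ X, s / M = t / M → s ≤ t → t < s + M / 2 ^ e) :
    (#X : ℝ) ≤ 2 * h / 2 ^ e := by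
  have h1 := blk hM hX hd
  have h2 : #X * 2 ^ e ≤ 2 * h := by
    calc #X * 2 ^ e ≤ (h / M + 2) * (M / 2 ^ e) * 2 ^ e := Nat.mul_le_mul_right _ h1
      _ = (h / M + 2) * (M / 2 ^ e * 2 ^ e) := by ring
      _ ≤ (h / M + 2) * M := Nat.mul_le_mul_left _ (Nat.div_mul_le_self _ _)
      _ = h / M * M + 2 * M := by ring
      _ ≤ h + 2 * M := Nat.add_le_add_right (Nat.div_mul_le_self _ _) _
      _ ≤ 2 * h := by omega
  rw [le_div_iff₀ (by positivity)]
  exact_mod_cast h2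

/-- positions too close to the end of a block -/
theorem wrap {x h l i : ℕ} (hi : i ≤ l) (hh : 2 * T (l + 1) ≤ h) :
    (#{t ∈ Ico x (x + h) | ¬ t % T (i + 1) + th l (i + 1) ≤ T (i + 1)} : ℝ) ≤
      h / 32 * (1 / 2) ^ i + if i = l then (h : ℝ) / 8 else 0 := by
  have h0 : 2 * T (i + 1) ≤ h := le_trans (Nat.mul_le_mul_left _ (Tle (by omega))) hh
  have key : ∀ e, th l (i + 1) = T (i + 1) / 2 ^ e →
      (#{t ∈ Ico x (x + h) | ¬ t % T (i + 1) + th l (i + 1) ≤ T (i + 1)} : ℝ) ≤ 2 * h / 2 ^ e := by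
    intro e he
    refine blk_real (Tp (i + 1)) (filter_subset _ _) h0 fun s hs t ht hst hle => ?_
    have hs' := (mem_filter.1 hs).2
    have := Nat.mod_lt t (Tp (i + 1))
    have a := Nat.div_add_mod s (T (i + 1))
    have b := Nat.div_add_mod t (T (i + 1))
    rw [hst] at a
    rw [he] at hs'
    omega
  by_cases hl : i = l
  · rw [if_pos hl]
    have h1 := key 4 (by rw [th, if_pos (by omega)]; norm_num)
    have h2 : (0 : ℝ) ≤ h / 32 * (1 / 2) ^ i := by positivity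
    have h3 : (2 : ℝ) * h / 2 ^ 4 = h / 8 := by ring
    rw [h3] at h1
    linarith
  · rw [if_neg hl, add_zero]
    have h1 := key (i + 1 + 5) (by rw [th, if_neg (by omega)])
    refine h1.trans_eq ?_
    rw [show i + 1 + 5 = i + 6 by ring, pow_add, one_div_pow]
    have : (2 : ℝ) ^ i ≠ 0 := by positivity
    field_simp
    ring

theorem D_sub (c j p s t : ℕ) : D c j p t - D c j p s = D c j s t := by
  rw [D, D, D]; ring

/-- second coordinates with a small difference of the slopes -/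
theorem small {x h l i p : ℕ} (hi : i ≤ l) (hh : 2 * T (l + 1) ≤ h) :
    (#{t ∈ Ico x (x + h) | ¬ (1 / 2 : ℝ) ^ (2 * (i + 1) + 6) ≤
      |D ((i + 1) % 2) (i + 1) p t|} : ℝ) ≤ h / 16 * (1 / 2) ^ i := by
  have h0 : 2 * T (i + 1) ≤ h := le_trans (Nat.mul_le_mul_left _ (Tle (by omega))) hh
  have h1 : (#{t ∈ Ico x (x + h) | ¬ (1 / 2 : ℝ) ^ (2 * (i + 1) + 6) ≤
      |D ((i + 1) % 2) (i + 1) p t|} : ℝ) ≤ 2 * h / 2 ^ (i + 5) := by
    refine blk_real (Tp (i + 1)) (filter_subset _ _) h0 fun s hs t ht hst hle => ?_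
    have hs' := abs_lt.1 (not_le.1 (mem_filter.1 hs).2)
    have ht' := abs_lt.1 (not_le.1 (mem_filter.1 ht).2)
    have a := Nat.div_add_mod s (T (i + 1))
    have b := Nat.div_add_mod t (T (i + 1))
    rw [hst] at a
    have h2 := D_lower (j := i + 1) (p := s) (q := t) (by omega) hle
    rw [← D_sub _ _ p] at h2
    have h3 : ((t - s : ℕ) : ℝ) / T (i + 1) / 2 ^ (i + 1 + 1) < 2 * (1 / 2) ^ (2 * (i + 1) + 6) := by
      linarith [hs'.1, ht'.2]
    have hT := Tpr (i + 1)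
    rw [div_div, div_lt_iff₀ (by positivity)] at h3
    have h4 : ((t - s : ℕ) : ℝ) * 2 ^ (i + 5) < T (i + 1) := by
      calc ((t - s : ℕ) : ℝ) * 2 ^ (i + 5) <
          2 * (1 / 2) ^ (2 * (i + 1) + 6) * (T (i + 1) * 2 ^ (i + 1 + 1)) * 2 ^ (i + 5) := by
            gcongr
        _ = T (i + 1) := by
            rw [show 2 * (i + 1) + 6 = i + i + 8 by ring, pow_add, pow_add, one_div_pow,
              show i + 1 + 1 = i + 2 by ring, pow_add (2 : ℝ) i 2, pow_add (2 : ℝ) i 5]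
            have : (2 : ℝ) ^ i ≠ 0 := by positivity
            field_simp
    have h5 : (t - s) * 2 ^ (i + 5) < T (i + 1) := by exact_mod_cast h4
    have h6 : T (i + 1) / 2 ^ (i + 5) * 2 ^ (i + 5) = T (i + 1) := by
      rw [T]
      exact Nat.div_mul_cancel (pow_dvd_pow _ (by nlinarith))
    rw [← h6] at h5
    have h7 := Nat.lt_of_mul_lt_mul_right h5
    omega
  refine h1.trans_eq ?_
  rw [pow_add, one_div_pow]
  have : (2 : ℝ) ^ i ≠ 0 := by positivity
  field_simp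
  ring

theorem geo (l : ℕ) : ∑ i ∈ range (l + 1), (1 / 2 : ℝ) ^ i ≤ 2 := sum_geometric_two_le _

/-- the first coordinates -/
def P0 (l a h : ℕ) : Finset ℕ :=
  {t ∈ Ico a (a + h) | ∀ i ≤ l, t % T (i + 1) + th l (i + 1) ≤ T (i + 1)}

/-- the second coordinates -/
def Q0 (l b h p : ℕ) : Finset ℕ :=
  {t ∈ Ico b (b + h) | (∀ i ≤ l, t % T (i + 1) + th l (i + 1) ≤ T (i + 1)) ∧
    ∀ i ≤ l, (1 / 2 : ℝ) ^ (2 * (i + 1) + 6) ≤ |D ((i + 1) % 2) (i + 1) p t|}

theorem P0_card {l a h : ℕ} (hh : 2 * T (l + 1) ≤ h) : (h : ℝ) / 2 ≤ #(P0 l a h) := by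
  have d := card_filter_add_card_filter_not (s := Ico a (a + h))
    fun t => ∀ i ≤ l, t % T (i + 1) + th l (i + 1) ≤ T (i + 1)
  have e : #{t ∈ Ico a (a + h) | ¬ ∀ i ≤ l, t % T (i + 1) + th l (i + 1) ≤ T (i + 1)} ≤
      ∑ i ∈ range (l + 1), #{t ∈ Ico a (a + h) | ¬ t % T (i + 1) + th l (i + 1) ≤ T (i + 1)} :=
    (card_le_card fun t ht => by
      simp only [mem_filter, mem_biUnion, mem_range, not_forall] at ht ⊢
      obtain ⟨i, x, y⟩ := ht.2
      exact ⟨i, by omega, ht.1, y⟩).trans card_biUnion_le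
  have f : (∑ i ∈ range (l + 1),
      (#{t ∈ Ico a (a + h) | ¬ t % T (i + 1) + th l (i + 1) ≤ T (i + 1)} : ℝ)) ≤
      ∑ i ∈ range (l + 1), ((h : ℝ) / 32 * (1 / 2) ^ i + if i = l then (h : ℝ) / 8 else 0) :=
    sum_le_sum fun i hi => wrap (by have := mem_range.1 hi; omega) hh
  rw [sum_add_distrib, ← mul_sum, sum_ite_eq', if_pos (by simp)] at f
  have g := geo l
  have h0 : (0 : ℝ) ≤ h := h.cast_nonneg
  rw [Nat.card_Ico, Nat.add_sub_cancel_left] at d
  rw [P0]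
  have e' := (Nat.cast_le (α := ℝ)).2 e
  have d' := congrArg (Nat.cast (R := ℝ)) d
  rw [Nat.cast_sum] at e'
  rw [Nat.cast_add] at d'
  nlinarith

theorem Q0_card {l b h p : ℕ} (hh : 2 * T (l + 1) ≤ h) : (h : ℝ) / 2 ≤ #(Q0 l b h p) := by
  have d := card_filter_add_card_filter_not (s := Ico b (b + h))
    fun t => (∀ i ≤ l, t % T (i + 1) + th l (i + 1) ≤ T (i + 1)) ∧
      ∀ i ≤ l, (1 / 2 : ℝ) ^ (2 * (i + 1) + 6) ≤ |D ((i + 1) % 2) (i + 1) p t|
  have e : #{t ∈ Ico b (b + h) | ¬ ((∀ i ≤ l, t % T (i + 1) + th l (i + 1) ≤ T (i + 1)) ∧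
      ∀ i ≤ l, (1 / 2 : ℝ) ^ (2 * (i + 1) + 6) ≤ |D ((i + 1) % 2) (i + 1) p t|)} ≤
      ∑ i ∈ range (l + 1), (#{t ∈ Ico b (b + h) | ¬ t % T (i + 1) + th l (i + 1) ≤ T (i + 1)} +
        #{t ∈ Ico b (b + h) | ¬ (1 / 2 : ℝ) ^ (2 * (i + 1) + 6) ≤
          |D ((i + 1) % 2) (i + 1) p t|}) := by
    refine le_trans ?_ (sum_le_sum fun i _ => card_union_le _ _)
    refine (card_le_card fun t ht => ?_).trans card_biUnion_le
    simp only [mem_filter, mem_biUnion, mem_range, mem_union, not_and_or, not_forall] at ht ⊢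
    rcases ht.2 with ⟨i, x, y⟩ | ⟨i, x, y⟩
    · exact ⟨i, by omega, Or.inl ⟨ht.1, y⟩⟩
    · exact ⟨i, by omega, Or.inr ⟨ht.1, y⟩⟩
  have f : (∑ i ∈ range (l + 1),
      ((#{t ∈ Ico b (b + h) | ¬ t % T (i + 1) + th l (i + 1) ≤ T (i + 1)} : ℝ) +
        (#{t ∈ Ico b (b + h) | ¬ (1 / 2 : ℝ) ^ (2 * (i + 1) + 6) ≤
          |D ((i + 1) % 2) (i + 1) p t|} : ℝ))) ≤
      ∑ i ∈ range (l + 1), (((h : ℝ) / 32 * (1 / 2) ^ i + if i = l then (h : ℝ) / 8 else 0) +
        (h : ℝ) / 16 * (1 / 2) ^ i) :=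
    sum_le_sum fun i hi => add_le_add (wrap (by have := mem_range.1 hi; omega) hh)
      (small (by have := mem_range.1 hi; omega) hh)
  rw [sum_add_distrib, sum_add_distrib (g := fun i => (h : ℝ) / 16 * (1 / 2) ^ i),
    sum_add_distrib, ← mul_sum, ← mul_sum, sum_ite_eq', if_pos (by simp)] at f
  have g := geo l
  have h0 : (0 : ℝ) ≤ h := h.cast_nonneg
  rw [Nat.card_Ico, Nat.add_sub_cancel_left] at d
  rw [Q0]
  have e' := (Nat.cast_le (α := ℝ)).2 e
  have d' := congrArg (Nat.cast (R := ℝ)) d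
  rw [Nat.cast_sum] at e'
  rw [Nat.cast_add] at d'
  simp only [Nat.cast_add, sum_add_distrib] at e'
  nlinarith

end

end Pool.Agent.KS6_91.AB
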