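import Pool.Agent.KS6_91.AB.Count

/-!
# Every factor of the word has quadratically many abelian classes
-/

set_option autoImplicit false

namespace Pool.Agent.KS6_91.AB

open Finset

noncomputable section

/-- the word over `k` letters -/
def word {k : ℕ} (hk : 3 ≤ k) (t : ℕ) : Fin k := ⟨wn t, wn_lt hk t⟩

theorem same {k : ℕ} (hk : 3 ≤ k) {p q u s : ℕ}
    (h : ∀ a, #{t ∈ Ico p (p + s) | word hk t = a} = #{t ∈ Ico u (u + q) | word hk t = a}) :
    s = q ∧ ∀ c < 2,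
      #{t ∈ Ico p (p + s) | wn t = c + 1} = #{t ∈ Ico u (u + q) | wn t = c + 1} := by
  constructor
  · have h1 := card_eq_sum_card_fiberwise (f := word hk) (s := Ico p (p + s)) (t := univ)
      fun _ _ => mem_coe.2 (mem_univ _)
    have h2 := card_eq_sum_card_fiberwise (f := word hk) (s := Ico u (u + q)) (t := univ)
      fun _ _ => mem_coe.2 (mem_univ _)
    simp only [h] at h1
    rw [← h2] at h1
    simpa using h1
  · intro c hc
    have := h ⟨c + 1, by omega⟩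
    simpa only [word, Fin.ext_iff] using this

theorem place (M i n h : ℕ) (hM : 0 < M) (h1 : 6 * h ≤ n) :
    ∃ a, i ≤ a ∧ a + 3 * h ≤ i + n ∧ (a % M + 3 * h ≤ M ∨ M < 3 * h) := by
  have h2 := Nat.mod_lt i hM
  by_cases c : i % M + 3 * h ≤ M
  · exact ⟨i, le_rfl, by omega, Or.inl c⟩
  · refine ⟨i + (M - i % M), by omega, by omega, ?_⟩
    have h3 : (i + (M - i % M)) % M = 0 := by
      rw [← Nat.mod_add_mod, Nat.add_sub_cancel' h2.le, Nat.mod_self]
    omega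

theorem T1 : T 1 = 2 ^ 21 := by rw [T]; norm_num

theorem main {k : ℕ} (hk : 3 ≤ k) (i n : ℕ) : (1 / 2 ^ 70 : ℝ) * n ^ 2 ≤
    #(((range (n + 1) ×ˢ range (n + 1)).filter fun p : ℕ × ℕ => 1 ≤ p.2 ∧ p.1 + p.2 ≤ n).image
      fun p a => #{q ∈ Ico (i + p.1) (i + p.1 + p.2) | word hk q = a}) := by
  obtain ⟨k', hk1, hk2⟩ : ∃ k, n < 2 ^ 14 * T k ∧ ∀ j < k, 2 ^ 14 * T j ≤ n :=
    have e : ∃ k, n < 2 ^ 14 * T k := ⟨n, by
      have := T8 n
      have := n.lt_two_pow_self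
      omega⟩
    ⟨Nat.find e, Nat.find_spec e, fun j h => not_lt.1 (Nat.find_min e h)⟩
  rw [one_div, inv_mul_le_iff₀ (by positivity)]
  rcases n.eq_zero_or_pos with rfl | z
  · simp
  by_cases hk3 : k' ≤ 1
  · have h1 : n ≤ 2 ^ 35 := by
      have := Tle hk3
      rw [T1] at this
      omega
    have h2 : (n : ℝ) ≤ 2 ^ 35 := mod_cast h1
    calc (n : ℝ) ^ 2 ≤ (2 ^ 35) ^ 2 := by gcongr
      _ = 2 ^ 70 := by norm_num
      _ ≤ _ := le_mul_of_one_le_right (by positivity)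
        (mod_cast card_pos.2 (Nonempty.image ⟨(0, 1), by simp; omega⟩ _))
  obtain ⟨l, rfl⟩ : ∃ l, k' = l + 2 := ⟨k' - 2, by omega⟩
  have hn := hk2 (l + 1) (by omega)
  have hT1 := Tp (l + 1)
  have hT2 : 2 ^ 19 * T (l + 1) ≤ T (l + 2) := by
    rw [show l + 2 = l + 1 + 1 from rfl, Ts (l + 1)]
    exact Nat.mul_le_mul_right _ (Nat.pow_le_pow_right two_pos (by omega))
  obtain ⟨h, hh1, hh2, hh3, hh4⟩ : ∃ h, 6 * h ≤ n ∧ 3 * h ≤ T (l + 2) ∧ n ≤ 2 ^ 18 * h ∧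
      1024 * T (l + 1) ≤ h := by
    refine ⟨min n (T (l + 2)) / 8, ?_, ?_, ?_, ?_⟩ <;>
      rcases le_total n (T (l + 2)) with c | c
    all_goals first | rw [min_eq_left c] | rw [min_eq_right c]
    all_goals omega
  obtain ⟨a, a1, a2, a3⟩ := place (T (l + 2)) i n h (Tp _) hh1
  replace a3 : a % T (l + 2) + 3 * h ≤ T (l + 2) := by omega
  have hh5 : 2 * T (l + 1) ≤ h := by omega
  let G := (P0 l a h).sigma fun p => Q0 l (a + 2 * h) h p
  let φ := fun (x : (_ : ℕ) × ℕ) b => #{q ∈ Ico x.1 (x.1 + (x.2 - x.1)) | word hk q = b}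
  have c : ∀ x ∈ G, ∀ y ∈ G, φ x = φ y → x.1 ≤ y.1 → y.1 ≤ x.1 + 2048 := by
    rintro ⟨p, q⟩ x ⟨r, s⟩ y e hle
    simp only [G, P0, Q0, mem_sigma, mem_filter, mem_Ico] at x y hle ⊢
    obtain ⟨u, rfl⟩ := Nat.exists_eq_add_of_le hle
    obtain ⟨e, g⟩ := same hk (congrFun e)
    dsimp only at e g
    rw [← e] at g
    obtain ⟨v, rfl⟩ := Nat.exists_eq_add_of_le x.1.1.1
    have hq : a + v + (q - (a + v)) = q := by omega
    refine Nat.add_le_add_left (near g x.1.2 ?_ ?_ ?_ ?_) _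
    · rw [hq]; exact x.2.2.1
    · rw [hq]; exact x.2.2.2
    · rw [mod_add (i := l + 2) le_rfl (by omega)]
      omega
    · omega
  have d := card_le_mul_card_image (f := φ) G 4097 fun b hb => by
    obtain ⟨x, hx, rfl⟩ := mem_image.1 hb
    refine (card_le_card_of_injOn (t := Icc (x.1 - 2048) (x.1 + 2048)) (·.1)
      (fun y hy => ?_) ?_).trans (by simp; omega)
    · have hy := mem_filter.1 (mem_coe.1 hy)
      have := c x hx y hy.1 hy.2.symm
      have := c y hy.1 x hx hy.2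
      exact mem_coe.2 (mem_Icc.2 (by dsimp only; omega))
    rintro ⟨p, q⟩ y ⟨r, s⟩ z rfl
    simp only [G, P0, Q0, coe_filter, mem_sigma, mem_filter, mem_Ico, Set.mem_ofPred_eq] at y z
    have := (same hk (congrFun (y.2.trans z.2.symm))).1
    dsimp only at this
    congr
    omega
  have e : G.image φ ⊆
      ((range (n + 1) ×ˢ range (n + 1)).filter fun p : ℕ × ℕ => 1 ≤ p.2 ∧ p.1 + p.2 ≤ n).image
        fun p a => #{q ∈ Ico (i + p.1) (i + p.1 + p.2) | word hk q = a} := fun b hb => by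
    obtain ⟨⟨p, q⟩, x, rfl⟩ := mem_image.1 hb
    simp only [G, P0, Q0, mem_sigma, mem_filter, mem_Ico] at x
    refine mem_image.2 ⟨(p - i, q - p), by simp; omega, ?_⟩
    simp only [φ, Nat.add_sub_cancel' (a1.trans x.1.1.1)]
  have g := card_nsmul_le_sum (P0 l a h) (fun p => (#(Q0 l (a + 2 * h) h p) : ℝ)) ((h : ℝ) / 2)
    fun p _ => Q0_card hh5
  have g2 := P0_card (l := l) (a := a) hh5
  have m : (n : ℝ) ≤ 2 ^ 18 * h := mod_cast hh3
  have e' : (#(G.image φ) : ℝ) ≤ _ := Nat.cast_le.2 (card_le_card e)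
  rw [← Nat.cast_sum, ← card_sigma, nsmul_eq_mul] at g
  rw [← Nat.cast_le (α := ℝ)] at d
  push_cast at d
  have u := (Nat.cast_nonneg (α := ℝ) h)
  have w : (h : ℝ) ^ 2 / 4 ≤ #G := by
    calc (h : ℝ) ^ 2 / 4 = h / 2 * (h / 2) := by ring
      _ ≤ #(P0 l a h) * (h / 2) := by gcongr
      _ ≤ _ := g
  calc (n : ℝ) ^ 2 ≤ (2 ^ 18 * h : ℝ) ^ 2 := by gcongr
    _ = 2 ^ 38 * ((h : ℝ) ^ 2 / 4) := by ring
    _ ≤ 2 ^ 38 * (4097 * #(G.image φ)) := by
      have := w.trans d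
      gcongr
    _ ≤ 2 ^ 70 * (#(G.image φ) : ℝ) := by
      have : (0 : ℝ) ≤ #(G.image φ) := Nat.cast_nonneg _
      nlinarith
    _ ≤ _ := by gcongr

end

end Pool.Agent.KS6_91.AB
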