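import Mathlib

/-!
# Slopes on many scales

`T j = 2 ^ (j ^ 2 + 16 j + 4)`. For `c = 0, 1` the slope `si c t` is the sum over all `i` with
`i = c mod 2` of `((t mod T i) / T i) / 2 ^ (i + 1)`.
-/

set_option autoImplicit false

namespace Pool.Agent.KS6_91.AB

open Finset

noncomputable section

/-- the periods -/
@[irreducible] def T (j : ℕ) : ℕ := 2 ^ (j ^ 2 + 16 * j + 4)

theorem Tp (j : ℕ) : 0 < T j := by rw [T]; exact Nat.two_pow_pos _

theorem Tpr (j : ℕ) : (0 : ℝ) < T j := mod_cast Tp j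

theorem Ts (j : ℕ) : T (j + 1) = 2 ^ (2 * j + 17) * T j := by
  rw [T, T, ← pow_add]; congr 1; ring

theorem Tsr (j : ℕ) : (T (j + 1) : ℝ) = 2 ^ (2 * j + 17) * T j := mod_cast Ts j

theorem Td {i j : ℕ} (h : i ≤ j) : T i ∣ T j := by
  rw [T, T]
  exact pow_dvd_pow _ (by nlinarith [Nat.pow_le_pow_left h 2])

theorem Tle {i j : ℕ} (h : i ≤ j) : T i ≤ T j := Nat.le_of_dvd (Tp j) (Td h)

theorem T8 (j : ℕ) : 8 * 2 ^ j ≤ T j := by
  rw [T, show (8 : ℕ) = 2 ^ 3 by norm_num, ← pow_add]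
  exact Nat.pow_le_pow_right two_pos (by nlinarith)

/-- relative position in the block of length `T i` -/
def f (i t : ℕ) : ℝ := ((t % T i : ℕ) : ℝ) / T i

theorem f0 (i t : ℕ) : 0 ≤ f i t := by unfold f; positivity

theorem f1 (i t : ℕ) : f i t ≤ 1 :=
  (div_le_one (Tpr i)).2 (mod_cast (Nat.mod_lt _ (Tp i)).le)

/-- the contribution of the scale `i` to the slope of the class `c` -/
def g (c i t : ℕ) : ℝ := if i % 2 = c then f i t / 2 ^ (i + 1) else 0

theorem g0 (c i t : ℕ) : 0 ≤ g c i t := by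
  unfold g
  split_ifs
  · exact div_nonneg (f0 _ _) (by positivity)
  · exact le_rfl

theorem g1 (c i t : ℕ) : g c i t ≤ 1 / 2 * (1 / 2) ^ i := by
  have h : (1 / 2 : ℝ) * (1 / 2) ^ i = 1 / 2 ^ (i + 1) := by
    rw [one_div_pow, pow_succ]; field_simp
  unfold g
  split_ifs
  · rw [h]
    exact div_le_div_of_nonneg_right (f1 _ _) (by positivity)
  · positivity

theorem sg (c t : ℕ) : Summable fun i => g c i t :=
  .of_nonneg_of_le (fun i => g0 c i t) (fun i => g1 c i t) (summable_geometric_two.mul_left _)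

theorem sgs (c t j : ℕ) : Summable fun i => g c (i + j) t :=
  (summable_nat_add_iff (f := fun i => g c i t) j).2 (sg c t)

/-- the slope -/
def si (c t : ℕ) : ℝ := ∑' i, g c i t

theorem si0 (c t : ℕ) : 0 ≤ si c t := tsum_nonneg fun i => g0 c i t

theorem si1 (c t : ℕ) : si c t ≤ 1 :=
  ((sg c t).tsum_le_tsum (fun i => g1 c i t) (summable_geometric_two.mul_left _)).trans_eq
    (by rw [tsum_mul_left, tsum_geometric_two]; norm_num)

theorem mod_add {i j t n : ℕ} (h : i ≤ j) (hn : t % T i + n < T i) :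
    (t + n) % T j = t % T j + n := by
  obtain ⟨x, hx⟩ := Td h
  have h1 : t % T j = t % T i + T i * ((t / T i) % x) := by rw [hx, Nat.mod_mul]
  have hx0 : 0 < x := by
    rcases Nat.eq_zero_or_pos x with h2 | h2
    · have := Tp j; rw [hx, h2] at this; simp at this
    · exact h2
  have h2 : (t / T i) % x + 1 ≤ x := Nat.mod_lt _ hx0
  have h3 : T i * ((t / T i) % x + 1) ≤ T i * x := Nat.mul_le_mul_left _ h2
  have h4 : t % T j + n < T j := by
    rw [h1]
    calc _ < T i * ((t / T i) % x + 1) := by rw [Nat.mul_add, Nat.mul_one]; omega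
      _ ≤ T i * x := h3
      _ = T j := hx.symm
  rw [← Nat.mod_add_mod, Nat.mod_eq_of_lt h4]

theorem f_add {i j t n : ℕ} (h : i ≤ j) (hn : t % T i + n < T i) :
    f j (t + n) = f j t + n / T j := by
  rw [f, f, mod_add h hn, Nat.cast_add, add_div]

/-- the difference of the slopes, scales `j` and above -/
def D (c j p q : ℕ) : ℝ := ∑' i, g c (i + j) q - ∑' i, g c (i + j) p

theorem D_add {c j p q n : ℕ} (hp : p % T j + n < T j) (hq : q % T j + n < T j) :
    D c j (p + n) (q + n) = D c j p q := by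
  rw [D, D, ← (sgs c _ j).tsum_sub (sgs c _ j), ← (sgs c _ j).tsum_sub (sgs c _ j)]
  refine tsum_congr fun i => ?_
  unfold g
  split_ifs
  · rw [f_add (Nat.le_add_left j i) hp, f_add (Nat.le_add_left j i) hq]
    ring
  · simp

theorem si_split (c j t : ℕ) : si c t = ∑ i ∈ range j, g c i t + ∑' i, g c (i + j) t :=
  ((sg c t).sum_add_tsum_nat_add j).symm

theorem si_sub {c j p q n : ℕ} (hp : p % T j + n < T j) (hq : q % T j + n < T j) :
    si c (q + n) - si c (p + n) =
      (∑ i ∈ range j, g c i (q + n) - ∑ i ∈ range j, g c i (p + n)) + D c j p q := by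
  rw [← D_add hp hq, si_split c j (q + n), si_split c j (p + n), D]
  ring

/-- sums of a periodic function -/
theorem per {F : ℕ → ℝ} {P : ℕ} {B : ℝ} (hP : 0 < P) (h : ∀ t, F (t + P) = F t)
    (b : ∀ t, 0 ≤ F t ∧ F t ≤ B) (x y u : ℕ) :
    ∑ n ∈ range u, F (x + n) ≤ ∑ n ∈ range u, F (y + n) + P * B := by
  have S : ∀ x, ∑ n ∈ range P, F (x + n) = ∑ n ∈ range P, F n := fun x => by
    induction x with
    | zero => simp
    | succ x ih =>
      have a := sum_range_succ (fun n => F (x + n)) P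
      have b := sum_range_succ' (fun n => F (x + n)) P
      simp only [h, add_zero, ← add_assoc] at a b
      simp only [add_right_comm x 1] at *
      linarith
  have hB : 0 ≤ B := (b 0).1.trans (b 0).2
  induction u using Nat.strong_induction_on with | _ u ih => ?_
  rcases le_or_gt u P with k | k
  · have a := sum_le_card_nsmul (range u) _ B fun n _ => (b (x + n)).2
    have c := sum_nonneg (s := range u) fun n _ => (b (y + n)).1
    have : (u : ℝ) ≤ P := mod_cast k
    simp only [card_range, nsmul_eq_mul] at a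
    nlinarith
  obtain ⟨v, rfl⟩ := Nat.exists_eq_add_of_le k.le
  simp only [sum_range_add, S, show ∀ z k, z + (P + k) = z + k + P by omega, h]
  linarith [ih v (by omega)]

theorem g_per {c i : ℕ} (t : ℕ) : g c i (t + T i) = g c i t := by
  unfold g f
  rw [Nat.add_mod_right]

theorem g_low (c i x y u : ℕ) :
    ∑ n ∈ range u, g c i (x + n) ≤ ∑ n ∈ range u, g c i (y + n) +
      if i % 2 = c then (T i : ℝ) / 2 ^ (i + 1) else 0 := by
  by_cases h : i % 2 = c
  · rw [if_pos h]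
    have := per (F := g c i) (P := T i) (B := 1 / 2 ^ (i + 1)) (Tp i) g_per (fun t => ⟨g0 _ _ _, by
      unfold g; rw [if_pos h]; exact div_le_div_of_nonneg_right (f1 _ _) (by positivity)⟩) x y u
    rwa [mul_one_div] at this
  · simp [g, h]

/-- the lower scales -/
def low (c j : ℕ) : ℝ := ∑ i ∈ range j, if i % 2 = c then (T i : ℝ) / 2 ^ (i + 1) else 0

theorem g_lows (c j x y u : ℕ) :
    ∑ n ∈ range u, ∑ i ∈ range j, g c i (x + n) ≤
      ∑ n ∈ range u, ∑ i ∈ range j, g c i (y + n) + low c j := by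
  rw [sum_comm, sum_comm (s := range u), low, ← sum_add_distrib]
  exact sum_le_sum fun i _ => g_low c i x y u

theorem key {c j p q u : ℕ} (hp : p % T j + u ≤ T j) (hq : q % T j + u ≤ T j)
    (h : |∑ n ∈ range u, si c (q + n) - ∑ n ∈ range u, si c (p + n)| ≤ 8) :
    u * |D c j p q| ≤ 8 + low c j := by
  have e : ∑ n ∈ range u, si c (q + n) - ∑ n ∈ range u, si c (p + n) =
      (∑ n ∈ range u, ∑ i ∈ range j, g c i (q + n) - ∑ n ∈ range u, ∑ i ∈ range j, g c i (p + n)) +
        u * D c j p q := by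
    rw [← sum_sub_distrib, ← sum_sub_distrib, ← nsmul_eq_mul, ← card_range u, ← sum_const,
      card_range, ← sum_add_distrib]
    refine sum_congr rfl fun n hn => ?_
    rw [mem_range] at hn
    exact si_sub (by omega) (by omega)
  have a := g_lows c j p q u
  have b := g_lows c j q p u
  rw [e] at h
  have h' := abs_le.1 h
  have e2 : (u : ℝ) * |D c j p q| = |u * D c j p q| := by rw [abs_mul, Nat.abs_cast]
  rw [e2, abs_le]
  constructor <;> linarith [h'.1, h'.2]

theorem low_one : low 1 1 = 0 := by simp [low]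

theorem sumT (l : ℕ) : ∑ i ∈ range (l + 1), (T i : ℝ) / 2 ^ (i + 1) ≤ T l / 2 ^ l := by
  induction l with
  | zero =>
    have := Tpr 0
    norm_num
  | succ l ih =>
    rw [sum_range_succ]
    have h : (2 : ℝ) * (T l / 2 ^ l) ≤ T (l + 1) / 2 ^ (l + 1) := by
      rw [Tsr, pow_succ (2 : ℝ) l]
      have h1 : (4 : ℝ) ≤ 2 ^ (2 * l + 17) := by
        calc (4 : ℝ) = 2 ^ 2 := by norm_num
          _ ≤ 2 ^ (2 * l + 17) := pow_le_pow_right₀ (by norm_num) (by omega)
      have h2 : (0 : ℝ) ≤ T l / 2 ^ l := by positivity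
      calc (2 : ℝ) * (T l / 2 ^ l) = 4 * (T l / 2 ^ l) / 2 := by ring
        _ ≤ 2 ^ (2 * l + 17) * (T l / 2 ^ l) / 2 := by gcongr
        _ = _ := by field_simp
    have h3 : (T (l + 1) : ℝ) / 2 ^ (l + 1 + 1) = T (l + 1) / 2 ^ (l + 1) / 2 := by
      rw [pow_succ (2 : ℝ) (l + 1)]; field_simp
    rw [h3]
    linarith

theorem low_le (l : ℕ) : low ((l + 2) % 2) (l + 2) ≤ T l / 2 ^ l := by
  rw [low, sum_range_succ, if_neg (by omega), add_zero]
  refine le_trans (sum_le_sum fun i _ => ?_) (sumT l)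
  split_ifs
  · exact le_rfl
  · positivity

theorem T8r (l : ℕ) : (8 : ℝ) ≤ T l / 2 ^ l := by
  rw [le_div_iff₀ (by positivity)]
  exact_mod_cast T8 l

theorem key2 {l p q u : ℕ} (hp : p % T (l + 2) + u ≤ T (l + 2)) (hq : q % T (l + 2) + u ≤ T (l + 2))
    (h : |∑ n ∈ range u, si ((l + 2) % 2) (q + n) - ∑ n ∈ range u, si ((l + 2) % 2) (p + n)| ≤ 8) :
    u * |D ((l + 2) % 2) (l + 2) p q| ≤ 2 * (T l / 2 ^ l) := by
  have := key hp hq h
  have := low_le l
  have := T8r l
  linarith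

theorem key1 {p q u : ℕ} (hp : p % T 1 + u ≤ T 1) (hq : q % T 1 + u ≤ T 1)
    (h : |∑ n ∈ range u, si 1 (q + n) - ∑ n ∈ range u, si 1 (p + n)| ≤ 8) :
    u * |D 1 1 p q| ≤ 8 := by
  have := key hp hq h
  rwa [low_one, add_zero] at this

/-- the margins: `T j / 16` on the scale `j = l + 1`, `T j / 2 ^ (j + 5)` below -/
def th (l j : ℕ) : ℕ := if j = l + 1 then T j / 16 else T j / 2 ^ (j + 5)

theorem Tdiv (j : ℕ) : T j / 2 ^ (j + 5) * 2 ^ (j + 5) = T j ∨ j = 0 := by
  rcases Nat.eq_zero_or_pos j with h | h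
  · exact Or.inr h
  · left
    rw [T]
    exact Nat.div_mul_cancel (pow_dvd_pow _ (by nlinarith))

theorem desc {l p q u : ℕ}
    (h : ∀ c < 2, |∑ n ∈ range u, si c (q + n) - ∑ n ∈ range u, si c (p + n)| ≤ 8) (j : ℕ)
    (hj : j ≤ l) (gp : ∀ i ≤ l, p % T (i + 1) + th l (i + 1) ≤ T (i + 1))
    (gq : ∀ i ≤ l, q % T (i + 1) + th l (i + 1) ≤ T (i + 1))
    (gd : ∀ i ≤ l, (1 / 2 : ℝ) ^ (2 * (i + 1) + 6) ≤ |D ((i + 1) % 2) (i + 1) p q|)
    (hu : u ≤ th l (j + 1)) : u ≤ 2048 := by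
  induction j with
  | zero =>
    have h1 := key1 (by have := gp 0 hj; simp only [zero_add] at *; omega)
      (by have := gq 0 hj; simp only [zero_add] at *; omega) (h 1 (by norm_num))
    have h2 := gd 0 hj
    norm_num at h2
    have h3 : (u : ℝ) * (1 / 256) ≤ 8 := le_trans (by gcongr) h1
    have h4 : (u : ℝ) ≤ 2048 := by linarith
    exact_mod_cast h4
  | succ j ih =>
    apply ih (by omega)
    have gp1 := gp (j + 1) hj
    have gq1 := gq (j + 1) hj
    have h2 := gd (j + 1) hj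
    change p % T (j + 2) + th l (j + 2) ≤ T (j + 2) at gp1
    change q % T (j + 2) + th l (j + 2) ≤ T (j + 2) at gq1
    change u ≤ th l (j + 2) at hu
    have h1 := key2 (l := j) (by omega) (by omega) (h _ (Nat.mod_lt _ two_pos))
    rw [th, if_neg (by omega)]
    have h3 : (u : ℝ) * (1 / 2) ^ (2 * (j + 1 + 1) + 6) ≤ 2 * (T j / 2 ^ j) :=
      le_trans (by gcongr) h1
    rw [Nat.le_div_iff_mul_le (by positivity)]
    have h4 : (u : ℝ) * 2 ^ (j + 1 + 5) ≤ T (j + 1) := by
      rw [one_div_pow, mul_one_div, div_le_iff₀ (by positivity)] at h3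
      have e1 : (2 : ℝ) * (T j / 2 ^ j) * 2 ^ (2 * (j + 1 + 1) + 6) = 2 ^ (j + 11) * T j := by
        rw [show 2 * (j + 1 + 1) + 6 = j + (j + 10) by ring, pow_add (2 : ℝ) j (j + 10),
          pow_succ (2 : ℝ) (j + 10)]
        have : (2 : ℝ) ^ j ≠ 0 := by positivity
        field_simp
      rw [e1] at h3
      calc (u : ℝ) * 2 ^ (j + 1 + 5) ≤ 2 ^ (j + 11) * T j * 2 ^ (j + 1 + 5) := by gcongr
        _ = T (j + 1) := by
          rw [Tsr, show 2 * j + 17 = (j + 11) + (j + 1 + 5) by ring, pow_add]; ring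
    exact_mod_cast h4

theorem D_lower {j p q : ℕ} (h : q % T j = p % T j + (q - p)) (hpq : p ≤ q) :
    ((q - p : ℕ) : ℝ) / T j / 2 ^ (j + 1) ≤ D (j % 2) j p q := by
  obtain ⟨s, rfl⟩ := Nat.exists_eq_add_of_le hpq
  have hs : p % T j + s < T j := by
    have := Nat.mod_lt (p + s) (Tp j)
    rw [Nat.add_sub_cancel_left] at h
    omega
  rw [Nat.add_sub_cancel_left, D, ← (sgs _ _ j).tsum_sub (sgs _ _ j)]
  have h1 : ∀ i, g (j % 2) (i + j) (p + s) - g (j % 2) (i + j) p =
      if (i + j) % 2 = j % 2 then (s : ℝ) / T (i + j) / 2 ^ (i + j + 1) else 0 := by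
    intro i
    unfold g
    split_ifs
    · rw [f_add (Nat.le_add_left j i) hs]; ring
    · simp
  have h2 : Summable fun i => g (j % 2) (i + j) (p + s) - g (j % 2) (i + j) p :=
    (sgs _ _ j).sub (sgs _ _ j)
  refine le_trans ?_ (h2.le_tsum 0 fun i _ => ?_)
  · rw [h1, zero_add, if_pos rfl]
  · rw [h1]
    split_ifs
    · positivity
    · exact le_rfl

end

end Pool.Agent.KS6_91.AB
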