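import Pool.Agent.KS6_91.AB.Scale

/-!
# The word over three letters

The letter at the position `t` is `t mod 2 + 1` or `0`. The number of the letters `c + 1` among the
first `t` letters is half of the sum of the slopes `si c n`, `n < t`, up to a bounded error.
-/

set_option autoImplicit false

namespace Pool.Agent.KS6_91.AB

open Finset

noncomputable section

/-- cumulative slope -/
def A (c t : ℕ) : ℝ := (∑ n ∈ range t, si c n) / 2

theorem A_succ (c t : ℕ) : A c (t + 1) = A c t + si c t / 2 := by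
  rw [A, A, sum_range_succ]; ring

theorem A_add (c t u : ℕ) : A c (t + u) = A c t + (∑ n ∈ range u, si c (t + n)) / 2 := by
  rw [A, A, sum_range_add]; ring

/-- cumulative slope, rounded -/
def W (c t : ℕ) : ℤ := ⌊A c t⌋

theorem W_two (c t : ℕ) : W c t ≤ W c (t + 2) ∧ W c (t + 2) ≤ W c t + 1 := by
  have h0 := si0 c t
  have h1 := si0 c (t + 1)
  have h2 := si1 c t
  have h3 := si1 c (t + 1)
  have e : A c (t + 2) = A c t + si c t / 2 + si c (t + 1) / 2 := by
    rw [show t + 2 = t + 1 + 1 by ring, A_succ, A_succ]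
  constructor
  · exact Int.floor_mono (by rw [e]; linarith)
  · exact (Int.floor_mono (by rw [e]; linarith)).trans_eq (Int.floor_add_one _)

/-- the word, as a sequence of natural numbers -/
def wn (t : ℕ) : ℕ := if W (t % 2) t < W (t % 2) (t + 2) then t % 2 + 1 else 0

theorem wn_lt {k : ℕ} (hk : 3 ≤ k) (t : ℕ) : wn t < k := by
  unfold wn
  split_ifs <;> omega

/-- the next position of parity `c` -/
def r (c t : ℕ) : ℕ := if t % 2 = c then t else t + 1

theorem step {c : ℕ} (hc : c < 2) (t : ℕ) :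
    (if wn t = c + 1 then (1 : ℤ) else 0) = W c (r c (t + 1)) - W c (r c t) := by
  by_cases h : t % 2 = c
  · have h1 : r c t = t := if_pos h
    have h2 : r c (t + 1) = t + 2 := if_neg (by omega)
    have h3 := W_two c t
    rw [h1, h2, wn, h]
    by_cases h4 : W c t < W c (t + 2)
    · rw [if_pos h4, if_pos rfl]; omega
    · rw [if_neg h4, if_neg (by omega)]; omega
  · have h1 : r c t = t + 1 := if_neg h
    have h2 : r c (t + 1) = t + 1 := if_pos (by omega)
    have h3 : ¬ wn t = c + 1 := by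
      unfold wn
      by_cases h4 : W (t % 2) t < W (t % 2) (t + 2)
      · rw [if_pos h4]; omega
      · rw [if_neg h4]; exact (Nat.succ_ne_zero c).symm
    rw [h1, h2, sub_self, if_neg h3]

theorem count {c : ℕ} (hc : c < 2) (p s : ℕ) :
    ((#{q ∈ Ico p (p + s) | wn q = c + 1} : ℕ) : ℤ) = W c (r c (p + s)) - W c (r c p) := by
  rw [← sum_Ico_sub (fun t => W c (r c t)) (Nat.le_add_right p s), card_filter]
  push_cast
  exact sum_congr rfl fun t _ => step hc t

theorem err (c t : ℕ) : A c t - 1 < W c (r c t) ∧ (W c (r c t) : ℝ) ≤ A c t + 1 / 2 := by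
  have h1 := Int.floor_le (A c (r c t))
  have h2 := Int.lt_floor_add_one (A c (r c t))
  have h3 : A c t ≤ A c (r c t) ∧ A c (r c t) ≤ A c t + 1 / 2 := by
    unfold r
    split_ifs
    · exact ⟨le_rfl, by norm_num⟩
    · rw [A_succ]
      exact ⟨by linarith [si0 c t], by linarith [si1 c t]⟩
  change (W c (r c t) : ℝ) ≤ _ at h1
  change _ < (W c (r c t) : ℝ) + 1 at h2
  constructor <;> linarith [h3.1, h3.2]

theorem rel {c : ℕ} (hc : c < 2) {p s u : ℕ}
    (h : #{q ∈ Ico p (p + s) | wn q = c + 1} = #{q ∈ Ico (p + u) (p + u + s) | wn q = c + 1}) :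
    |∑ n ∈ range u, si c (p + s + n) - ∑ n ∈ range u, si c (p + n)| ≤ 8 := by
  have h1 := count hc p s
  have h2 := count hc (p + u) s
  rw [h] at h1
  have h3 : (W c (r c (p + s)) : ℝ) - W c (r c p) = W c (r c (p + u + s)) - W c (r c (p + u)) := by
    exact_mod_cast h1.symm.trans h2
  have e1 := A_add c p u
  have e2 := A_add c (p + s) u
  rw [add_right_comm p s u] at e2
  have a := err c (p + s)
  have b := err c p
  have d := err c (p + u + s)
  have e := err c (p + u)
  rw [abs_le]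
  constructor <;> linarith [a.1, a.2, b.1, b.2, d.1, d.2, e.1, e.2]

theorem near {l p s u : ℕ}
    (h : ∀ c < 2, #{q ∈ Ico p (p + s) | wn q = c + 1} =
      #{q ∈ Ico (p + u) (p + u + s) | wn q = c + 1})
    (gp : ∀ i ≤ l, p % T (i + 1) + th l (i + 1) ≤ T (i + 1))
    (gq : ∀ i ≤ l, (p + s) % T (i + 1) + th l (i + 1) ≤ T (i + 1))
    (gd : ∀ i ≤ l, (1 / 2 : ℝ) ^ (2 * (i + 1) + 6) ≤ |D ((i + 1) % 2) (i + 1) p (p + s)|)
    (top : p % T (l + 2) + s + u ≤ T (l + 2)) (hs : 1024 * T (l + 1) ≤ s) : u ≤ 2048 := by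
  rcases Nat.eq_zero_or_pos u with h0 | hu
  · omega
  have hr : ∀ c < 2, |∑ n ∈ range u, si c (p + s + n) - ∑ n ∈ range u, si c (p + n)| ≤ 8 :=
    fun c hc => rel hc (h c hc)
  refine desc hr l le_rfl gp gq gd ?_
  have e : (p + s) % T (l + 2) = p % T (l + 2) + s := mod_add le_rfl (by omega)
  have h1 := key2 (l := l) (by omega) (by omega) (hr _ (Nat.mod_lt (l + 2) two_pos))
  have h2 := D_lower (j := l + 2) (p := p) (q := p + s) (by rw [e, Nat.add_sub_cancel_left])
    (Nat.le_add_right _ _)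
  rw [Nat.add_sub_cancel_left] at h2
  have h3 := h2.trans (le_abs_self _)
  rw [th, if_pos rfl, Nat.le_div_iff_mul_le (by norm_num)]
  have a := Tpr l
  have b := Tpr (l + 1)
  have c := Tpr (l + 2)
  have h4 : (u : ℝ) * (s / T (l + 2) / 2 ^ (l + 2 + 1)) ≤ 2 * (T l / 2 ^ l) :=
    le_trans (by gcongr) h1
  have e2 : (T (l + 2) : ℝ) = 2 ^ (2 * l + 19) * T (l + 1) := by
    rw [Tsr (l + 1)]; congr 2
  have h5 : (u : ℝ) * s ≤ 16 * T l * T (l + 2) := by
    rw [div_div, mul_div_assoc', div_le_iff₀ (by positivity)] at h4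
    have e3 : 2 * (T l / 2 ^ l) * (T (l + 2) * 2 ^ (l + 2 + 1)) = 16 * (T l : ℝ) * T (l + 2) := by
      rw [show l + 2 + 1 = l + 3 by ring, pow_add (2 : ℝ) l 3]
      have : (2 : ℝ) ^ l ≠ 0 := by positivity
      field_simp
      norm_num
    rwa [e3] at h4
  have h6 : (1024 : ℝ) * T (l + 1) ≤ s := mod_cast hs
  have h7 : (u : ℝ) * 16 ≤ T (l + 1) := by
    have h8 : (u : ℝ) * (1024 * T (l + 1)) ≤ 16 * T l * (2 ^ (2 * l + 19) * T (l + 1)) := by
      rw [← e2]
      exact le_trans (by gcongr) h5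
    have h9 : (u : ℝ) * 1024 ≤ 16 * T l * 2 ^ (2 * l + 19) := by
      refine le_of_mul_le_mul_right (a := (T (l + 1) : ℝ)) ?_ b
      linarith
    rw [Tsr]
    have e4 : (2 : ℝ) ^ (2 * l + 19) = 2 ^ (2 * l + 17) * 4 := by
      rw [show 2 * l + 19 = (2 * l + 17) + 2 by ring, pow_add]; norm_num
    rw [e4] at h9
    linarith
  exact_mod_cast h7

end

end Pool.Agent.KS6_91.AB
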